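import Pool.Agent.H181R5.NLT.Stmts

/-!
# Reduction of reachability on subgraphs of the transitive tournament to the host
-/

set_option autoImplicit false

namespace Pool.Agent.H454R3.NLT

open Finset Relation Pool.Agent.H181R5.NLH Pool.Agent.H181R5.NLT

section Red

variable {V : Type} {m : ℕ} (u : Fin m → V) (len : Fin m → Fin m → ℕ)
  (p : Fin m → Fin m → ℕ → V)

/-- `e` is an arc of the path for the pair `q`. -/
def IsOn (q : Fin m × Fin m) (e : V × V) : Prop :=
  q.1 < q.2 ∧ ∃ t, t < len q.1 q.2 ∧ e = (p q.1 q.2 t, p q.1 q.2 (t + 1))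

/-- The data of a subdivision, without the arcs. -/
structure Data : Prop where
  inj : Function.Injective u
  ends : ∀ i j, i < j → 1 ≤ len i j ∧ p i j 0 = u i ∧ p i j (len i j) = u j
  nb : ∀ i j k, i < j → ∀ t, 0 < t → t < len i j → p i j t ≠ u k
  un : ∀ i j i' j' t t', i < j → i' < j' → 0 < t → t < len i j → 0 < t' → t' < len i' j' →
      p i j t = p i' j' t' → i = i' ∧ j = j' ∧ t = t'

variable {u len p}

theorem isOn_unique (hd : Data u len p) {e : V × V} {q q' : Fin m × Fin m}
    (h : IsOn len p q e) (h' : IsOn len p q' e) : q' = q := by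
  obtain ⟨hq, t, ht, he⟩ := h
  obtain ⟨hq', t', ht', he'⟩ := h'
  have h3 := he.symm.trans he'
  rw [Prod.mk.injEq] at h3
  obtain ⟨h4, h5⟩ := h3
  obtain ⟨i, j⟩ := q
  obtain ⟨i', j'⟩ := q'
  simp only at hq ht h4 h5 hq' ht'
  rcases Nat.eq_zero_or_pos t with h0 | h0
  · rcases Nat.eq_zero_or_pos t' with h0' | h0'
    · subst h0
      subst h0'
      rw [(hd.ends i j hq).2.1, (hd.ends i' j' hq').2.1] at h4
      have hi : i = i' := hd.inj h4
      subst hi
      rcases Nat.lt_or_ge (0 + 1) (len i j) with h6 | h6
      · rcases Nat.lt_or_ge (0 + 1) (len i j') with h7 | h7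
        · have := hd.un i j i j' _ _ hq hq' (Nat.succ_pos 0) h6 (Nat.succ_pos 0) h7 h5
          rw [this.2.1]
        · have h8 : len i j' = 0 + 1 := by omega
          have h9 := (hd.ends i j' hq').2.2
          rw [h8, ← h5] at h9
          exact absurd h9 (hd.nb i j j' hq _ (Nat.succ_pos 0) h6)
      · have h8 : len i j = 0 + 1 := by omega
        have h9 := (hd.ends i j hq).2.2
        rw [h8, h5] at h9
        rcases Nat.lt_or_ge (0 + 1) (len i j') with h7 | h7
        · exact absurd h9 (hd.nb i j' j hq' _ (Nat.succ_pos 0) h7)
        · have h10 : len i j' = 0 + 1 := by omega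
          have h11 := (hd.ends i j' hq').2.2
          rw [h10, h9] at h11
          rw [hd.inj h11]
    · subst h0
      rw [(hd.ends i j hq).2.1] at h4
      exact absurd h4.symm (hd.nb i' j' i hq' _ h0' ht')
  · rcases Nat.eq_zero_or_pos t' with h0' | h0'
    · subst h0'
      rw [(hd.ends i' j' hq').2.1] at h4
      exact absurd h4 (hd.nb i j i' hq _ h0 ht)
    · have := hd.un i j i' j' _ _ hq hq' h0 ht h0' ht' h4
      rw [this.1, this.2.1]

variable (len p)

open Classical in
/-- The pair to which an arc belongs. -/
noncomputable def live (e : V × V) : Option (Fin m × Fin m) :=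
  if h : ∃ q, IsOn len p q e then some h.choose else none

variable {len p}

theorem live_spec {e : V × V} {q : Fin m × Fin m} (h : live len p e = some q) :
    IsOn len p q e := by
  unfold live at h
  split_ifs at h with h'
  rw [Option.some.injEq] at h
  rw [← h]
  exact h'.choose_spec

theorem live_of (hd : Data u len p) {e : V × V} {q : Fin m × Fin m} (h : IsOn len p q e) :
    live len p e = some q := by
  have hex : ∃ q, IsOn len p q e := ⟨q, h⟩
  unfold live
  rw [dif_pos hex]
  exact congrArg some (isOn_unique hd h hex.choose_spec)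

variable (len p)

/-- The arc set on the host. -/
noncomputable def lift (x : Fin m × Fin m → Bool) (e : V × V) : Bool :=
  match live len p e with
  | none => false
  | some q => x q

variable {len p}

theorem lift_iff (hd : Data u len p) (x : Fin m × Fin m → Bool) (e : V × V) :
    lift len p x e = true ↔ ∃ q, IsOn len p q e ∧ x q = true := by
  unfold lift
  constructor
  · intro h
    cases hl : live len p e with
    | none => rw [hl] at h; exact absurd h (by simp)
    | some q => rw [hl] at h; exact ⟨q, live_spec hl, h⟩
  · rintro ⟨q, hq, hx⟩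
    rw [live_of hd hq]
    exact hx

theorem reach_lift (hd : Data u len p) (x : Fin m × Fin m → Bool)
    (hx : ∀ i j, x (i, j) = true → i < j) (s t : Fin m) :
    Reach (lift len p x) (u s) (u t) ↔ Reach x s t := by
  constructor
  · intro h
    have key : ∀ b, Reach (lift len p x) (u s) b → (∃ j, b = u j ∧ Reach x s j) ∨
        (∃ i j r, i < j ∧ 0 < r ∧ r < len i j ∧ b = p i j r ∧ Reach x s i ∧ x (i, j) = true) := by
      intro b hb
      induction hb with
      | refl => exact Or.inl ⟨s, rfl, ReflTransGen.refl⟩
      | @tail b c _ hbc ih =>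
        obtain ⟨⟨i, j⟩, ⟨hij, r, hr, he⟩, hxij⟩ := (lift_iff hd x (b, c)).1 hbc
        simp only at hij hr he
        rw [Prod.mk.injEq] at he
        obtain ⟨hb1, hc1⟩ := he
        have hri : Reach x s i := by
          rcases Nat.eq_zero_or_pos r with h0 | h0
          · subst h0
            rw [(hd.ends i j hij).2.1] at hb1
            rcases ih with ⟨j', hj', hrj⟩ | ⟨i', j', r', hij', h0', hr', hb', _, _⟩
            · rw [hb1] at hj'
              rw [hd.inj hj']
              exact hrj
            · rw [hb1] at hb'
              exact absurd hb'.symm (hd.nb i' j' i hij' _ h0' hr')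
          · rcases ih with ⟨j', hj', hrj⟩ | ⟨i', j', r', hij', h0', hr', hb', hri', _⟩
            · rw [hb1] at hj'
              exact absurd hj' (hd.nb i j j' hij _ h0 hr)
            · rw [hb1] at hb'
              have := hd.un i j i' j' _ _ hij hij' h0 hr h0' hr' hb'
              rw [this.1]
              exact hri'
        rcases Nat.lt_or_ge (r + 1) (len i j) with h6 | h6
        · exact Or.inr ⟨i, j, r + 1, hij, Nat.succ_pos r, h6, hc1, hri, hxij⟩
        · have h7 : r + 1 = len i j := by omega
          rw [h7, (hd.ends i j hij).2.2] at hc1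
          exact Or.inl ⟨j, hc1, hri.tail hxij⟩
    rcases key _ h with ⟨j, hj, hr⟩ | ⟨i, j, r, hij, h0, hr, hb, _, _⟩
    · rw [hd.inj hj]; exact hr
    · exact absurd hb.symm (hd.nb i j t hij _ h0 hr)
  · intro h
    induction h with
    | refl => exact ReflTransGen.refl
    | @tail b c _ hbc ih =>
      have hlt : b < c := hx b c hbc
      have hp : ∀ r, r ≤ len b c → Reach (lift len p x) (u b) (p b c r) := by
        intro r
        induction r with
        | zero =>
          intro _
          rw [(hd.ends b c hlt).2.1]
          exact ReflTransGen.refl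
        | succ r ihr =>
          intro hr
          refine ReflTransGen.tail (ihr (by omega)) ?_
          exact (lift_iff hd x _).2 ⟨(b, c), ⟨hlt, r, by simpa using Nat.lt_of_succ_le hr, rfl⟩, hbc⟩
      have h1 := hp (len b c) le_rfl
      rw [(hd.ends b c hlt).2.2] at h1
      exact ReflTransGen.trans ih h1

variable (len p)

/-- The program on `m` vertices obtained from a program on the host. -/
noncomputable def red {Q : Type} (P : BP (V × V) Q) (d : Fin m × Fin m) :
    BP (Fin m × Fin m) Q where
  start := P.start
  var := fun q => match live len p (P.var q) with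
    | none => d
    | some r => r
  next := fun q β => match live len p (P.var q) with
    | none => P.next q false
    | some _ => P.next q β
  acc := P.acc

theorem red_step {Q : Type} (P : BP (V × V) Q) (d : Fin m × Fin m) (x : Fin m × Fin m → Bool) :
    (red len p P d).step x = P.step (lift len p x) := by
  funext q
  unfold BP.step red lift
  dsimp only
  cases hl : live len p (P.var q) with
  | none => rfl
  | some r => rfl

theorem red_accepts {Q : Type} (P : BP (V × V) Q) (d : Fin m × Fin m)
    (x : Fin m × Fin m → Bool) :
    (red len p P d).Accepts x ↔ P.Accepts (lift len p x) := by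
  unfold BP.Accepts
  rw [red_step]
  rfl

end Red

/-- Task RED. -/
theorem taskRed : TaskRed := by
  intro V _ _ H m N hsub he s t
  obtain ⟨u, len, p, hinj, _, hends, harc, _, hnb, hun⟩ := hsub
  have hd : Data u len p := ⟨hinj, hends, hnb, hun⟩
  obtain ⟨Q, hQ, P, hcard, hP⟩ := he (u s) (u t)
  refine ⟨Q, hQ, red len p P (s, t), hcard, fun x hx => ?_⟩
  have hx' : ∀ i j, x (i, j) = true → i < j := by
    intro i j hij
    have := hx _ hij
    rw [mem_filter] at this
    exact this.2
  rw [red_accepts, hP (lift len p x), reach_lift hd x hx']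
  intro e hxe
  obtain ⟨q, ⟨hq, r, hr, hon⟩, _⟩ := (lift_iff hd x e).1 hxe
  rw [hon]
  exact harc q.1 q.2 hq r hr

end Pool.Agent.H454R3.NLT
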